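import Pool.Agent.H83.ELZ.T8Final

/-!
# MP_75f39d_co: union-closed families in which every point is in at most three covered generators

Let `A` be a finite union-closed family.  A generator is a (nonempty) member that is not a union of
other members; it is covered if it is inside the union of the other generators.

1. If every point lies in at most three covered generators, and some generator intersects another one, or
   `A` is separating and not a power set, then some point lies in strictly more than half of the members.
2. Let `P` be a nonempty set of covered generators such that a covered generator intersecting a member of
   `P` is in `P`, and every point lies in at most three members of `P`.  Then some point of `⋃ P` lies in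
   strictly more than half of the members.

Proof.  Let `F` be the family with the empty set added.  If a covered generator `w` has two points `y`, `y'`
such that every covered generator intersecting `w` contains `y` or `y'`, and another generator contains
both, then `A ↦ A ∪ w` shows that `y` or `y'` is in more than half.  Otherwise every member `w` of `P` that
is inside another member of `P` is inside exactly one, its host, and the points of `w` are in at least three
further members.  Choose for every member `w` of `P` two points `x w`, `x' w` that are together in no other
member of `P` (in the host only, if there is one); the points of a host are taken in one or two of its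
guests.  We prove `∑ (freq (x w) + freq (x' w)) ≥ |P| (|F| + 1)`, the sum over `w ∈ P`.

The difference of the two sides is a sum of `1 - u (w, A)` over `A ∈ F` and `w ∈ P`, with `u (w, A)` the
number of chosen points of `w` outside `A`.  If `w` is the only generator inside `A ∪ w` that is not inside
`A`, the pair `A`, `A ∪ w` contributes `2 - u (w, A) ≥ 0`.  A term is negative only for the demands: `w` is
not inside `A`, `u (w, A) = 2`, and `A ∪ w` contains another generator not inside `A`.  Every demand receives
two halves from the positive terms: pairs `A`, `A ∪ g` with `g` swallowed by the demand, terms of `(A, g)`
with `u (g, A) = 0`, and terms `(B, g)` in which `g` is inside the union of the other generators inside `B`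
(two halves, one for each chosen point `y` of `g`; the other two members of `P` that contain `y` determine
`A` and the demand).  No half is used twice, and those of `B = ⋃ F` are not used.
-/

set_option autoImplicit false

namespace Pool.Agent.Results.MP_75f39d_co.DegreeThree

open Finset

/-- The union of any two members is a member. -/
def UnionClosed {α : Type*} [DecidableEq α] (A : Finset (Finset α)) : Prop :=
  ∀ S ∈ A, ∀ T ∈ A, S ∪ T ∈ A

/-- `A` has a member, separates the points of its union, and is not the power set of its union. -/
def SepNotPower {α : Type*} [DecidableEq α] (A : Finset (Finset α)) : Prop :=
  A.Nonempty ∧ (∀ x ∈ A.sup id, ∀ y ∈ A.sup id, x ≠ y → ∃ T ∈ A, ¬ (x ∈ T ↔ y ∈ T)) ∧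
    A ≠ (A.sup id).powerset

/-- The number of members that contain `x`. -/
def freq {α : Type*} [DecidableEq α] (A : Finset (Finset α)) (x : α) : ℕ :=
  (A.filter fun T => x ∈ T).card

/-- The generators: the members that are not the union of the members properly inside them (so they are
nonempty). -/
def generators {α : Type*} [DecidableEq α] (A : Finset (Finset α)) : Finset (Finset α) :=
  A.filter fun G => (A.filter fun T => T ⊂ G).sup id ≠ G

/-- The generators that intersect another generator. -/
def meeting {α : Type*} [DecidableEq α] (A : Finset (Finset α)) : Finset (Finset α) :=
  (generators A).filter fun G => ∃ G' ∈ generators A, G' ≠ G ∧ ¬ Disjoint G' G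

/-- The generators inside the union of the other generators. -/
def covered {α : Type*} [DecidableEq α] (A : Finset (Finset α)) : Finset (Finset α) :=
  (generators A).filter fun G => G ⊆ ((generators A).erase G).sup id

/-- Let `A` be a finite union-closed family.  (1) If every point lies in at most three covered generators,
and two generators intersect or `A` is separating and not a power set, some point lies in strictly more
than half of the members.  (2) If `P` is a nonempty set of covered generators, a covered generator that
intersects a member of `P` is in `P`, and every point lies in at most three members of `P`, then some point
of the union of `P` lies in strictly more than half of the members. -/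
theorem result {α : Type*} [DecidableEq α] (A : Finset (Finset α)) (hA : UnionClosed A) :
    ((meeting A).Nonempty ∨ SepNotPower A →
      (∀ x : α, ((covered A).filter fun G => x ∈ G).card ≤ 3) →
      ∃ x ∈ A.sup id, A.card < 2 * freq A x) ∧
    (∀ P ⊆ covered A, P.Nonempty → (∀ G ∈ covered A, ∀ G' ∈ P, ¬ Disjoint G G' → G ∈ P) →
      (∀ x : α, (P.filter fun G => x ∈ G).card ≤ 3) →
      ∃ x ∈ P.sup id, A.card < 2 * freq A x) := by
  refine ⟨fun h hdeg => H83.ELZ.three_all hA h hdeg, ?_⟩
  intro P hP hne hcl hdeg
  obtain ⟨z, hz, hlt⟩ := H83.ELZ.three_local (J := H97.GEN.gens A) (P := P)
    (fun g hg => H97.GEN.gens_irr A hg) hne hP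
    (fun w hw i hi y hyw hyi => hcl w hw i hi (Finset.not_disjoint_iff.2 ⟨y, hyw, hyi⟩)) hdeg
  refine ⟨z, hz, ?_⟩
  have h1 : A.card ≤ (H97.GEN.unions (H97.GEN.gens A)).card := by
    rw [H97.GEN.unions_gens hA]
    exact Finset.card_le_card (Finset.subset_insert _ _)
  have h2 : H97.GEN.fr (H97.GEN.unions (H97.GEN.gens A)) z = freq A z := by
    rw [H97.GEN.unions_gens hA]
    exact H97.GEN.fr_insert_empty A z
  omega

end Pool.Agent.Results.MP_75f39d_co.DegreeThree
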