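import Pool.Agent.H83.F4.Final

/-!
# MP_75f39d_co: union-closed families whose covered generators have at most four points

Let `A` be a finite union-closed family.  A generator is a (nonempty) member that is not a union of
other members; it is covered if it is inside the union of the other generators.

1. If every covered generator has at most four points and any two of them share at most two points, and
   some generator intersects another one, or `A` is separating and not a power set, then some point lies in
   strictly more than half of the members.
2. Let `P` be a nonempty set of covered generators such that a covered generator intersecting a member of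
   `P` is in `P`, every member of `P` has at most four points and any two share at most two.  Then some
   point of `⋃ P` lies in strictly more than half of the members.

Proof.  Let `F` be the family with the empty set added.  The sum over `w ∈ P` and `x ∈ w` of
`2 freq x - |F|` is the sum of `b (B, w) = ∑ (2 |T| - |w|)` over `w ∈ P`, `w ⊆ B ∈ F`, where `T` runs
through the traces `T = X ∩ w` of the members `X` with `X ∪ w = B`.  The traces are closed under unions, so
there are few types with `b < 0`; in all of them `w` has a point in no other generator inside `B`.  If `{p}`
is a trace of such a `w`, a generator `v` with `v ∩ w = {p}` and `v ⊆ (B \ w) ∪ {p}` contains `p` in all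
its traces at `B`, and `b (B, v)` pays `1` if all points of `v` are like this, otherwise `2`, for each of
them.  This leaves only unpaid units at `(B, w)` for which `v` is unique and its only trace is `v`.  The
pairs `(B, w)` with such a unit are grouped by `B' = (B \ w) ∪ {p}` and `p`.  At `B'` the value
`b (B', v) = 2 |v| - 2` is free and pays two units of the group.  Any two members `a`, `b` of the group
receive half a unit from `(X, a)`, `(X, b)` or `(X, v)`, `X = B' ∪ a ∪ b`: `a ∩ b` is a minimal trace of
`(X, a)` if `b` has a private point outside `a`, it determines `b` and `B'`, and the number of minimal
traces with at most two points, counted with their points, is at most twice the value.  For a group of size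
`D` this is enough: `D ≤ 2 + D (D - 1) / 4`.  A smallest union `w ∪ u` of two intersecting generators with
`w ∈ P` has a positive remainder (if all members of `P` have at least three points).
-/

set_option autoImplicit false

namespace Pool.Agent.Results.MP_75f39d_co.FourPoints

open Finset

/-- The union of any two members is a member. -/
def UnionClosed {α : Type*} [DecidableEq α] (A : Finset (Finset α)) : Prop :=
  ∀ S ∈ A, ∀ T ∈ A, S ∪ T ∈ A

/-- `A` has a member, separates the points of its union, and is not the power set of its union. -/
def SepNotPower {α : Type*} [DecidableEq α] (A : Finset (Finset α)) : Prop :=
  A.Nonempty ∧ (∀ x ∈ A.sup id, ∀ y ∈ A.sup id, x ≠ y → ∃ T ∈ A, ¬ (x ∈ T ↔ y ∈ T)) ∧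
    A ≠ (A.sup id).powerset

/-- The number of members that contain `x`. -/
def freq {α : Type*} [DecidableEq α] (A : Finset (Finset α)) (x : α) : ℕ :=
  (A.filter fun T => x ∈ T).card

/-- The generators: the members that are not the union of the members properly inside them (so they are
nonempty). -/
def generators {α : Type*} [DecidableEq α] (A : Finset (Finset α)) : Finset (Finset α) :=
  A.filter fun G => (A.filter fun T => T ⊂ G).sup id ≠ G

/-- The generators that intersect another generator. -/
def meeting {α : Type*} [DecidableEq α] (A : Finset (Finset α)) : Finset (Finset α) :=
  (generators A).filter fun G => ∃ G' ∈ generators A, G' ≠ G ∧ ¬ Disjoint G' G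

/-- The generators inside the union of the other generators. -/
def covered {α : Type*} [DecidableEq α] (A : Finset (Finset α)) : Finset (Finset α) :=
  (generators A).filter fun G => G ⊆ ((generators A).erase G).sup id

/-- Let `A` be a finite union-closed family.  (1) If every covered generator has at most four points, any
two of them share at most two points, and two generators intersect or `A` is separating and not a power
set, then some point lies in strictly more than half of the members.  (2) If `P` is a nonempty set of
covered generators, a covered generator that intersects a member of `P` is in `P`, every member of `P` has
at most four points, and any two of them share at most two points, then some point of the union of `P` lies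
in strictly more than half of the members. -/
theorem result {α : Type*} [DecidableEq α] (A : Finset (Finset α)) (hA : UnionClosed A) :
    ((meeting A).Nonempty ∨ SepNotPower A →
      (∀ G ∈ covered A, G.card ≤ 4) →
      (∀ G ∈ covered A, ∀ G' ∈ covered A, G' ≠ G → (G' ∩ G).card ≤ 2) →
      ∃ x ∈ A.sup id, A.card < 2 * freq A x) ∧
    (∀ P ⊆ covered A, P.Nonempty → (∀ G ∈ covered A, ∀ G' ∈ P, ¬ Disjoint G G' → G ∈ P) →
      (∀ G ∈ P, G.card ≤ 4) → (∀ G ∈ P, ∀ G' ∈ P, G' ≠ G → (G' ∩ G).card ≤ 2) →
      ∃ x ∈ P.sup id, A.card < 2 * freq A x) :=
  ⟨fun h h4 h2 => H83.F4.four_all hA h h4 h2,
    fun P hP hne hcl h4 h2 => H83.F4.four_local hA P hP hne hcl h4 h2⟩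

end Pool.Agent.Results.MP_75f39d_co.FourPoints
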