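import Pool.Agent.H62.UC.Tp
import Pool.Agent.H62.UC.Tb
import Pool.Agent.H66.FC.Exact

/-!
# MP_75f39d_co: a local criterion for union-closed families

Let `F` be a family of subsets of a finite set `S`, `lam ≥ 0` weights on `S`.  For `x ∈ S` call
`Y ⊆ S ∖ {x}` uncovered if no member `T` of `F` has `x ∈ T ⊆ Y ∪ {x}`; these `Y` form a down-set.  The
theorem characterises the `F` and `lam` such that `∑ lam x * (2 freq x - |A|) ≥ 0` (sum over `S`) for every
finite union-closed family `A` that contains `F`: the condition is an edge-isoperimetric inequality for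
the down-sets of uncovered sets, `lam x * |E| ≤ ∑ lam j * exits E j`.  It implies the strict inequality
of Poonen for separating families in which a random subset of the universe covers each point with
probability at least `1/3`.

Proof.  (a) `H51.UC`: a largest minimiser of the submodular function `boundary - c * size` over the
subfamilies of a down-set is itself a down-set, so the inequality for down-sets holds for arbitrary
subfamilies.  (b) `H78.UC`, `H62.UC`: for `x ∈ S` and `w` a member (trace on `S` of a member with a fixed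
part outside `S`) without `x` such that `w ∪ {x}` is not a member, let `C w` be the family of the
`Y ⊆ S ∖ {x}` such that `w` is the largest member inside `Y ∪ {x}`.  `|C w|` decreases with `w`.  The
edges that leave the union of the `C w`, `w` in an up-closed set, lead to pairs `(T, j)`, `j ∈ T` a member,
`T ∖ {j}` not a member, and at most `2 ^ (1 - k) * |C w|` of them to the same pair, where `k` is the number
of points of `T ∖ {j}` outside the largest member `w` inside it.  A layer-cake sum and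
`k * 2 ^ (1 - k) ≤ 1` give part 4.  (c) `H66.FC`: necessity in (3) and (1), by the families
`2 ^ (S ∖ {x}) ∪ {Y ∪ {x} : Y ∉ E}` and, for (1), Farkas' lemma and a product construction.
-/

set_option autoImplicit false

namespace Pool.Agent.Results.MP_75f39d_co.LocalCriterion

open Finset

/-- The union of any two members is a member. -/
def UnionClosed {α : Type*} [DecidableEq α] (A : Finset (Finset α)) : Prop :=
  ∀ S ∈ A, ∀ T ∈ A, S ∪ T ∈ A

/-- `A` has a member, separates the points of its union, and is not the power set of its union. -/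
def SepNotPower {α : Type*} [DecidableEq α] (A : Finset (Finset α)) : Prop :=
  A.Nonempty ∧ (∀ x ∈ A.sup id, ∀ y ∈ A.sup id, x ≠ y → ∃ T ∈ A, ¬ (x ∈ T ↔ y ∈ T)) ∧
    A ≠ (A.sup id).powerset

/-- Twice the number of members that contain `x`, minus the number of members. -/
def bias {α : Type*} [DecidableEq α] (A : Finset (Finset α)) (x : α) : ℝ :=
  2 * ((A.filter fun T => x ∈ T).card : ℝ) - (A.card : ℝ)

/-- The number of members `T` without `x` such that `T ∪ {x}` is not a member. -/
def gap {α : Type*} [DecidableEq α] (A : Finset (Finset α)) (x : α) : ℕ :=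
  (A.filter fun T => x ∉ T ∧ insert x T ∉ A).card

/-- The subsets `Y` of `S ∖ {x}` such that no member `T` of `F` has `x ∈ T ⊆ Y ∪ {x}`. -/
def uncovered {α : Type*} [DecidableEq α] (F : Finset (Finset α)) (S : Finset α) (x : α) :
    Finset (Finset α) :=
  (S.erase x).powerset.filter fun Y => ¬ ∃ T ∈ F, x ∈ T ∧ T ⊆ insert x Y

/-- The number of `Y ∈ E` without `j` such that `Y ∪ {j} ∉ E`. -/
def exits {α : Type*} [DecidableEq α] (E : Finset (Finset α)) (j : α) : ℕ :=
  (E.filter fun Y => j ∉ Y ∧ insert j Y ∉ E).card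

/-- `L` is a rate at `x`: every down-closed family `E` of uncovered sets has
`L * lam x * |E| ≤ ∑ lam j * exits E j` (sum over `j ∈ S ∖ {x}`). -/
def Rate {α : Type*} [DecidableEq α] (F : Finset (Finset α)) (S : Finset α) (lam : α → ℝ)
    (x : α) (L : ℝ) : Prop :=
  ∀ E ⊆ uncovered F S x, (∀ Y ∈ E, ∀ Z ⊆ Y, Z ∈ E) →
    L * lam x * (E.card : ℝ) ≤ ∑ j ∈ S.erase x, lam j * (exits E j : ℝ)

/-- The proportion of uncovered sets among the subsets of `S ∖ {x}`. -/
noncomputable def miss {α : Type*} [DecidableEq α] (F : Finset (Finset α)) (S : Finset α)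
    (x : α) : ℝ :=
  ((uncovered F S x).card : ℝ) / 2 ^ (S.erase x).card

private theorem cB_eq {α : Type*} [DecidableEq α] (V : Finset α) (lam : α → ℝ)
    (E : Finset (Finset α)) : H62.UC.cB V lam E = ∑ j ∈ V, lam j * (exits E j : ℝ) := by
  unfold H62.UC.cB exits
  have h1 : ∀ Y ∈ E, ∑ j ∈ V with (j ∉ Y ∧ insert j Y ∉ E), lam j =
      ∑ j ∈ V, if j ∉ Y ∧ insert j Y ∉ E then lam j else 0 := fun Y _ => sum_filter _ _
  rw [sum_congr rfl h1, sum_comm]
  refine sum_congr rfl fun j _ => ?_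
  rw [← sum_filter, sum_const, nsmul_eq_mul, mul_comm]

private theorem rate_iff {α : Type*} [DecidableEq α] (F : Finset (Finset α)) (S : Finset α)
    (lam : α → ℝ) (x : α) (L : ℝ) : Rate F S lam x L ↔
      H62.UC.Rt (S.erase x) lam x (H62.UC.Ds F S x) L := by
  unfold Rate H62.UC.Rt
  refine forall_congr' fun E => ?_
  rw [cB_eq]
  rfl

private theorem rate_of_adm {α : Type*} [DecidableEq α] {F : Finset (Finset α)} {S : Finset α}
    {x : α} {L : ℝ} (h : H62.UC.Adm (S.erase x) (fun _ => 1 / 2) (fun _ => 1)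
      (H62.UC.Ds F S x) L) : Rate F S (fun _ => 1) x L := by
  have hV : H62.UC.Ds F S x ⊆ (S.erase x).powerset := filter_subset _ _
  rw [H62.UC.adm_card hV] at h
  rw [rate_iff]
  intro E hE hd
  rw [mul_one]
  exact h E hE hd

private theorem miss_eq {α : Type*} [DecidableEq α] (F : Finset (Finset α)) (S : Finset α)
    (x : α) : H51.UC.wP (S.erase x) (fun _ => 1 / 2) (H62.UC.Ds F S x) = miss F S x :=
  H62.UC.wP_half (filter_subset _ _)

private theorem rate_one {α : Type*} [DecidableEq α] (F : Finset (Finset α)) {S : Finset α}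
    {x : α} (h : miss F S x ≤ 2 / 3) : Rate F S (fun _ => 1) x 1 := by
  rw [← miss_eq] at h
  exact rate_of_adm (H62.UC.adm_two_thirds (filter_subset _ _) (H62.UC.Ds_dn F S x) h)

private theorem rate_log {α : Type*} [DecidableEq α] (F : Finset (Finset α)) {S : Finset α}
    {x : α} : Rate F S (fun _ => 1) x (Real.logb 2 (1 / miss F S x)) := by
  have h1 := H62.UC.adm_log (V := S.erase x) (l := fun _ => (1 : ℝ))
    (fun _ _ => ⟨one_pos, le_refl _⟩) (D := H62.UC.Ds F S x) (filter_subset _ _)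
  have h2 : (fun j : α => 1 - (2:ℝ) ^ (-(fun _ : α => (1:ℝ)) j)) = fun _ => 1 / 2 := by
    funext j
    rw [Real.rpow_neg_one]
    norm_num
  rw [h2, miss_eq] at h1
  exact rate_of_adm h1

private theorem rate_petal {α : Type*} [DecidableEq α] {F : Finset (Finset α)} {S : Finset α}
    {x : α} {𝒯 : Finset (Finset α)} (h𝒯 : ∀ T ∈ 𝒯, T ∈ F ∧ x ∈ T ∧ T ⊆ S)
    (hd : ∀ T ∈ 𝒯, ∀ T' ∈ 𝒯, T ≠ T' → T ∩ T' = {x}) :
    Rate F S (fun _ => 1) x (∑ T ∈ 𝒯, ((T.card - 1 : ℕ) : ℝ) / (2 ^ (T.card - 1) - 1)) := by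
  intro E hE hdE
  obtain ⟨Q, hQ⟩ : ∃ Q, Q = 𝒯.image fun T => T.erase x := ⟨_, rfl⟩
  have hinj : Set.InjOn (fun T : Finset α => T.erase x) (𝒯 : Set (Finset α)) := by
    intro T hT T' hT' h
    have h1 : T.erase x = T'.erase x := h
    rw [← insert_erase (h𝒯 T hT).2.1, ← insert_erase (h𝒯 T' hT').2.1, h1]
  have h1 := H66.FC.petal (V := S.erase x) (E := E) (hE.trans (filter_subset _ _)) hdE
    (Q := Q) (by
      intro P hP
      rw [hQ, mem_image] at hP
      obtain ⟨T, hT, rfl⟩ := hP
      exact erase_subset_erase x (h𝒯 T hT).2.2)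
    (by
      intro P hP P' hP' hne
      rw [hQ, mem_image] at hP hP'
      obtain ⟨T, hT, rfl⟩ := hP
      obtain ⟨T', hT', rfl⟩ := hP'
      have h2 := hd T hT T' hT' (fun h => hne (by rw [h]))
      rw [disjoint_left]
      intro a ha ha'
      rw [mem_erase] at ha ha'
      have h3 : a ∈ T ∩ T' := mem_inter.2 ⟨ha.2, ha'.2⟩
      rw [h2, mem_singleton] at h3
      exact ha.1 h3)
    (by
      intro P hP Y hY hPY
      rw [hQ, mem_image] at hP
      obtain ⟨T, hT, rfl⟩ := hP
      have h2 := (mem_filter.1 (hE hY)).2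
      refine h2 ⟨T, (h𝒯 T hT).1, (h𝒯 T hT).2.1, ?_⟩
      rw [← insert_erase (h𝒯 T hT).2.1]
      exact insert_subset_insert x hPY)
    (lam := fun _ => 1) (fun _ _ => zero_le_one) (w := fun _ => 1) (fun _ _ _ _ => le_refl _)
    (fun _ _ => zero_le_one)
  rw [mul_one]
  refine le_trans (le_of_eq ?_) h1
  congr 1
  rw [hQ, sum_image hinj]
  refine sum_congr rfl fun T hT => ?_
  rw [card_erase_of_mem (h𝒯 T hT).2.1, one_mul]

private theorem part1 {α : Type*} [DecidableEq α] {A : Finset (Finset α)} (hA : UnionClosed A)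
    {S : Finset α} {lam L : α → ℝ} (h : ∀ x ∈ S, 0 ≤ lam x ∧ Rate A S lam x (L x)) :
    ∑ x ∈ S, lam x * ((gap A x : ℝ) * (L x - 1)) ≤ ∑ x ∈ S, lam x * bias A x :=
  H62.UC.star_main_w hA (fun x hx => (h x hx).1) (fun x hx => (rate_iff _ _ _ _ _).1 (h x hx).2)

private theorem rate_mono {α : Type*} [DecidableEq α] {F A : Finset (Finset α)} (hFA : F ⊆ A)
    {S : Finset α} {lam : α → ℝ} {x : α} {L : ℝ} (h : Rate F S lam x L) : Rate A S lam x L := by
  intro E hE hd
  refine h E (fun Y hY => ?_) hd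
  have h1 := mem_filter.1 (hE hY)
  refine mem_filter.2 ⟨h1.1, ?_⟩
  rintro ⟨T, hT, hxT, hTY⟩
  exact h1.2 ⟨T, hFA hT, hxT, hTY⟩

private theorem part2 {α : Type*} [DecidableEq α] {F : Finset (Finset α)} {S : Finset α}
    {lam : α → ℝ} (hF : ∀ T ∈ F, T ⊆ S) (hlam : ∀ x ∈ S, 0 ≤ lam x) :
    (∀ A, UnionClosed A → F ⊆ A → 0 ≤ ∑ x ∈ S, lam x * bias A x) ↔
      ∀ x ∈ S, Rate F S lam x 1 := by
  constructor
  · intro h x hx E hE hd
    rw [one_mul]
    exact H66.FC.nec hF hx hE hd fun A hA hFA _ => h A hA hFA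
  · intro h A hA hFA
    have h1 := part1 hA (S := S) (lam := lam) (L := fun _ => 1)
      fun x hx => ⟨hlam x hx, rate_mono hFA (h x hx)⟩
    simpa using h1

private theorem part3 {α : Type*} [DecidableEq α] (hα : Infinite α) {F : Finset (Finset α)}
    {S : Finset α} (hF : ∀ T ∈ F, T ⊆ S) :
    (∀ A, UnionClosed A → F ⊆ A → ∃ x ∈ S, 0 ≤ bias A x) ↔
      ∃ lam : α → ℝ, (∀ x ∈ S, 0 ≤ lam x ∧ Rate F S lam x 1) ∧ ∃ x ∈ S, 0 < lam x := by
  constructor
  · intro h
    obtain ⟨lam, h1, h2, h3⟩ := H66.FC.weights_of_fc hF fun A hA hFA => by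
      obtain ⟨x, hx, h4⟩ := h A hA hFA
      refine ⟨x, hx, ?_⟩
      unfold bias at h4
      have h5 : (A.card : ℝ) ≤ ((2 * (A.filter (fun T => x ∈ T)).card : ℕ) : ℝ) := by
        push_cast
        linarith
      exact_mod_cast h5
    refine ⟨lam, fun x hx => ⟨h1 x hx, fun E hE hd => ?_⟩, h2⟩
    rw [one_mul]
    exact h3 x hx E hE hd
  · rintro ⟨lam, h1, x0, hx0, h2⟩ A hA hFA
    have h3 := (part2 hF fun x hx => (h1 x hx).1).2 (fun x hx => (h1 x hx).2) A hA hFA
    by_contra hcon
    have h4 : ∀ x ∈ S, bias A x < 0 := by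
      intro x hx
      by_contra h5
      exact hcon ⟨x, hx, not_lt.1 h5⟩
    have h5 : ∑ x ∈ S, lam x * bias A x < 0 :=
      sum_neg' (fun x hx => mul_nonpos_of_nonneg_of_nonpos (h1 x hx).1 (h4 x hx).le)
        ⟨x0, hx0, mul_neg_of_pos_of_neg h2 (h4 x0 hx0)⟩
    linarith

private theorem part4 {α : Type*} [DecidableEq α] {A : Finset (Finset α)} (hA : UnionClosed A)
    (hS : SepNotPower A) {lam : α → ℝ}
    (hl : ∀ x ∈ A.sup id, 0 < lam x ∧ Rate A (A.sup id) lam x 1) : ∃ x ∈ A.sup id, 0 < bias A x := by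
  obtain ⟨hne, hsep, hpow⟩ := hS
  obtain ⟨x, hx, h⟩ := H62.UC.strict_w hA hne hsep hpow (fun i hi => (hl i hi).1)
    (fun i hi => (rate_iff _ _ _ _ _).1 (hl i hi).2)
  refine ⟨x, hx, ?_⟩
  have h1 : (A.card : ℝ) < ((2 * (A.filter (fun T => x ∈ T)).card : ℕ) : ℝ) := by exact_mod_cast h
  rw [Nat.cast_mul, Nat.cast_ofNat] at h1
  unfold bias
  linarith

/-- For finite families of finite sets:
(1) (infinite ground set) Let the members of `F` be subsets of `S`.  Every union-closed `A` that contains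
`F` has an `x ∈ S` in at least half of its members if and only if `1` is a rate at every `x ∈ S` for some
weights on `S`, not all `0` (a finite linear programme).
(2) If `A` is union-closed, separates the points of its union `U`, is not the power set of `U`, and
`miss x ≤ 2/3` for all `x ∈ U`, or more generally `1` is a rate at every `x ∈ U` for some positive weights
(for `F = A`, `S = U`), then some `x ∈ U` lies in strictly more than half of the members.
(3) Let the members of `F` be subsets of `S`.  The weighted sum over `S` of `2 freq x - |A|` is at least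
`0` for every union-closed `A` that contains `F` if and only if `1` is a rate at every `x ∈ S`.
(4) If `A` is union-closed and `L x` is a rate for all `x ∈ S` (for `F = A`) then the weighted sum over
`S` of `gap x * (L x - 1)` is at most the weighted sum of `2 freq x - |A|`.
(5) For equal weights the following are rates at `x`: `1` if `miss x ≤ 2/3`; `log₂ (1 / miss x)`; the sum
of `(|T| - 1) / (2 ^ (|T| - 1) - 1)` over any members `T ⊆ S` of `F` with `x ∈ T` that meet pairwise only
in `x`. -/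
theorem result {α : Type*} [DecidableEq α] :
    (Infinite α → ∀ (F : Finset (Finset α)) (S : Finset α), (∀ T ∈ F, T ⊆ S) →
      ((∀ A, UnionClosed A → F ⊆ A → ∃ x ∈ S, 0 ≤ bias A x) ↔
        ∃ lam : α → ℝ, (∀ x ∈ S, 0 ≤ lam x ∧ Rate F S lam x 1) ∧ ∃ x ∈ S, 0 < lam x)) ∧
    (∀ A : Finset (Finset α), UnionClosed A → SepNotPower A →
      ((∀ x ∈ A.sup id, miss A (A.sup id) x ≤ 2 / 3) ∨
        ∃ lam : α → ℝ, ∀ x ∈ A.sup id, 0 < lam x ∧ Rate A (A.sup id) lam x 1) →
      ∃ x ∈ A.sup id, 0 < bias A x) ∧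
    (∀ (F : Finset (Finset α)) (S : Finset α) (lam : α → ℝ), (∀ T ∈ F, T ⊆ S) →
      (∀ x ∈ S, 0 ≤ lam x) →
      ((∀ A, UnionClosed A → F ⊆ A → 0 ≤ ∑ x ∈ S, lam x * bias A x) ↔
        ∀ x ∈ S, Rate F S lam x 1)) ∧
    (∀ A : Finset (Finset α), UnionClosed A → ∀ (S : Finset α) (lam L : α → ℝ),
      (∀ x ∈ S, 0 ≤ lam x ∧ Rate A S lam x (L x)) →
      ∑ x ∈ S, lam x * ((gap A x : ℝ) * (L x - 1)) ≤ ∑ x ∈ S, lam x * bias A x) ∧
    (∀ (F : Finset (Finset α)) (S : Finset α) (x : α),
      (miss F S x ≤ 2 / 3 → Rate F S (fun _ => 1) x 1) ∧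
      Rate F S (fun _ => 1) x (Real.logb 2 (1 / miss F S x)) ∧
      ∀ 𝒯 : Finset (Finset α), (∀ T ∈ 𝒯, T ∈ F ∧ x ∈ T ∧ T ⊆ S) →
        (∀ T ∈ 𝒯, ∀ T' ∈ 𝒯, T ≠ T' → T ∩ T' = {x}) →
        Rate F S (fun _ => 1) x (∑ T ∈ 𝒯, ((T.card - 1 : ℕ) : ℝ) / (2 ^ (T.card - 1) - 1))) := by
  refine ⟨fun hα F S hF => part3 hα hF, ?_, fun F S lam hF hlam => part2 hF hlam,
    fun A hA S lam L h => part1 hA h,
    fun F S x => ⟨rate_one F, rate_log F, fun 𝒯 h𝒯 hd => rate_petal h𝒯 hd⟩⟩
  intro A hA hS h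
  rcases h with h | ⟨lam, hl⟩
  · exact part4 hA hS (lam := fun _ => 1) fun x hx => ⟨one_pos, rate_one A (h x hx)⟩
  · exact part4 hA hS hl

end Pool.Agent.Results.MP_75f39d_co.LocalCriterion
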