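import Pool.Agent.H4.FP.Main
import Pool.Agent.H4.FQ.Main2

/-!
# MP_75f39d_co: only power sets minimise (largest frequency)/(number of members);
# Poonen's Q1 is equivalent to the union-closed sets conjecture

(i) Every separating union-closed family with nonempty universe that is not a power set can be
improved: some union-closed family with a nonempty member has a strictly smaller ratio of largest
frequency to number of members.
(ii) Consequence (ratio at most one half): the union-closed sets conjecture, Poonen's Q1 and the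
weak form are equivalent.
-/

set_option autoImplicit false

namespace Pool.Agent.Results.MP_75f39d_co.OnlyPowerSetsMinimise

theorem result :
    (∀ A : Finset (Finset ℕ),
      (∀ X ∈ A, ∀ Y ∈ A, X ∪ Y ∈ A) →
      (∀ x ∈ A.sup id, ∀ y ∈ A.sup id, x ≠ y →
        ∃ S ∈ A, (x ∈ S ∧ y ∉ S) ∨ (y ∈ S ∧ x ∉ S)) →
      (A.sup id).Nonempty →
      A ≠ (A.sup id).powerset →
      ∃ B : Finset (Finset ℕ),
        (∀ X ∈ B, ∀ Y ∈ B, X ∪ Y ∈ B) ∧
        (∃ X ∈ B, X.Nonempty) ∧
        ∀ x ∈ B.sup id, ∃ y ∈ A.sup id,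
          (B.filter (fun S => x ∈ S)).card * A.card < (A.filter (fun S => y ∈ S)).card * B.card) ∧
    List.TFAE [
      (∀ A : Finset (Finset ℕ),
        (∀ X ∈ A, ∀ Y ∈ A, X ∪ Y ∈ A) →
        (∃ X ∈ A, X.Nonempty) →
        ∃ x ∈ A.sup id, 2 * (A.filter (fun S => x ∈ S)).card ≥ A.card),
      (∀ A : Finset (Finset ℕ),
        A.Nonempty →
        (∀ X ∈ A, ∀ Y ∈ A, X ∪ Y ∈ A) →
        (∀ x ∈ A.sup id, ∀ y ∈ A.sup id, x ≠ y →
          ∃ S ∈ A, (x ∈ S ∧ y ∉ S) ∨ (y ∈ S ∧ x ∉ S)) →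
        A ≠ (A.sup id).powerset →
        ∃ x ∈ A.sup id, 2 * (A.filter (fun S => x ∈ S)).card > A.card),
      (∀ A : Finset (Finset ℕ),
        A.Nonempty →
        (∀ X ∈ A, ∀ Y ∈ A, X ∪ Y ∈ A) →
        (∀ x ∈ A.sup id, ∀ y ∈ A.sup id, x ≠ y →
          ∃ S ∈ A, (x ∈ S ∧ y ∉ S) ∨ (y ∈ S ∧ x ∉ S)) →
        (A.sup id).Nonempty →
        (2 * (A.sup id).sup (fun x => (A.filter (fun S => x ∈ S)).card) = A.card ↔
          A = (A.sup id).powerset))] :=
  ⟨fun A hA hsep hU hpow => Pool.Agent.H4.FQ.improve A hA hsep hU hpow,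
    Pool.Agent.H4.FP.main_tfae⟩

end Pool.Agent.Results.MP_75f39d_co.OnlyPowerSetsMinimise
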